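import Mathlib

set_option autoImplicit false

namespace Pool.Agent.Helper973_Meta

/-- Dual locality: if an endomorphism `γ` of a group `A` moves every element inside its
orbit under a finite group `Γ` of automorphisms, then it moves every character of `A` inside its
`Γ`-orbit. -/
theorem dual_local {A Γ : Type*} [Group A] [Group Γ] [Finite Γ] (ρ : Γ →* MulAut A)
    (γ : A →* A) (h : ∀ a, ∃ g, γ a = ρ g a) (η : A →* ℂˣ) :
    ∃ g, ∀ a, η (γ a) = η (ρ g a) := by
  classical
  cases nonempty_fintype Γ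
  set c : (A →* ℂˣ) → (A →* ℂ) := fun χ => (Units.coeHom ℂ).comp χ with hcdef
  set L : Γ → (A →* ℂˣ) := fun g => (η.comp (ρ g).toMonoidHom).comp γ with hL
  set R : Γ → (A →* ℂˣ) := fun g => η.comp (ρ g).toMonoidHom with hR
  have hsum : ∀ a, ∑ g, c (L g) a = ∑ g, c (R g) a := by
    intro a
    obtain ⟨g₀, hg₀⟩ := h a
    refine Fintype.sum_equiv (Equiv.mulRight g₀) _ _ (fun g => ?_)
    simp [hL, hR, hcdef, hg₀]
  have hli := linearIndependent_monoidHom A ℂ
  rw [linearIndependent_iff] at hli
  have hl := hli ((∑ g, Finsupp.single (c (L g)) (1 : ℂ)) - ∑ g, Finsupp.single (c (R g)) (1 : ℂ))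
    (by
      rw [map_sub, map_sum, map_sum]
      simp only [Finsupp.linearCombination_single, one_smul]
      ext a
      simp only [Pi.sub_apply, Finset.sum_apply, Pi.zero_apply]
      rw [hsum a, sub_self])
  have hev := DFunLike.congr_fun hl (c (L 1))
  by_contra hno
  push Not at hno
  have hR0 : ∀ g, c (R g) ≠ c (L 1) := by
    intro g hg
    obtain ⟨a, ha⟩ := hno g
    apply ha
    have := DFunLike.congr_fun hg a
    have h2 : ((R g a : ℂˣ) : ℂ) = ((L 1 a : ℂˣ) : ℂ) := this
    have h3 := Units.ext h2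
    simpa [hL, hR] using h3.symm
  have e2 : (∑ g, Finsupp.single (c (R g)) (1 : ℂ)) (c (L 1)) = 0 := by
    rw [Finsupp.finsetSum_apply]
    apply Finset.sum_eq_zero
    intro g _
    rw [Finsupp.single_apply, if_neg (hR0 g)]
  have e1 : (∑ g, Finsupp.single (c (L g)) (1 : ℂ)) (c (L 1)) ≠ 0 := by
    rw [Finsupp.finsetSum_apply]
    simp only [Finsupp.single_apply]
    rw [Finset.sum_ite, Finset.sum_const_zero, add_zero, Finset.sum_const, nsmul_eq_mul, mul_one]
    have : (Finset.univ.filter (fun g => c (L g) = c (L 1))).Nonempty := ⟨1, by simp⟩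
    exact_mod_cast Finset.card_pos.mpr this |>.ne'
  rw [Finsupp.sub_apply, e2, sub_zero] at hev
  exact e1 hev

end Pool.Agent.Helper973_Meta
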