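import Mathlib
import Pool.Agent.Helper973_OutC.Base
import Pool.Agent.Helper973_Meta.Dual

/-!
Class-preserving automorphisms of a group `G` with an abelian normal subgroup `A` centralised by
the commutator subgroup of `G`, and characters of `A`.
-/

set_option autoImplicit false

namespace Pool.Agent.Helper973_Meta.Loc

open Subgroup Pool.Agent.Helper973_OutC
open scoped commutatorElement

variable {G : Type*} [Group G]

/-- `w` is simulated at every point by an element of `A` -/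
def SimA (A : Subgroup G) (w : MulAut G) : Prop :=
  ∀ g : G, ∃ z ∈ A, w g = z * g * z⁻¹

theorem SimA.mem {A : Subgroup G} [hn : A.Normal] {w : MulAut G} (h : SimA A w) (x : G) :
    w x * x⁻¹ ∈ A := by
  obtain ⟨z, hz, hz'⟩ := h x
  rw [hz']
  have : z * x * z⁻¹ * x⁻¹ = z * (x * z⁻¹ * x⁻¹) := by group
  rw [this]
  exact A.mul_mem hz (hn.conj_mem _ (A.inv_mem hz) x)

/-- `A` is abelian, normal, and centralised by `G'` -/
structure Good (A : Subgroup G) : Prop where
  comm : ∀ a ∈ A, ∀ b ∈ A, a * b = b * a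
  cent : ∀ a ∈ A, ∀ u ∈ gam G 1, a * u = u * a

theorem SimA.fix {A : Subgroup G} (hA : Good A) {w : MulAut G} (h : SimA A w) {a : G}
    (ha : a ∈ A) : w a = a := by
  obtain ⟨z, hz, hz'⟩ := h a
  rw [hz', hA.comm z hz a ha]
  group

theorem SimA.fix' {A : Subgroup G} (hA : Good A) {w : MulAut G} (h : SimA A w) {u : G}
    (hu : u ∈ gam G 1) : w u = u := by
  obtain ⟨z, hz, hz'⟩ := h u
  rw [hz', hA.cent z hz u hu]
  group

/-- a class-preserving automorphism restricted to a normal subgroup -/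
def restr (A : Subgroup G) [hn : A.Normal] (γ : MulAut G) (hγ : γ ∈ AutC G) : A →* A where
  toFun a := ⟨γ a, by
    obtain ⟨y, hy⟩ := isConj_iff.1 (hγ a)
    rw [← hy]
    exact hn.conj_mem _ a.2 y⟩
  map_one' := by apply Subtype.ext; simp
  map_mul' a b := by apply Subtype.ext; simp

variable {A : Subgroup G} [A.Normal]

/-- conjugation on `A` -/
abbrev cj (x : G) : MulAut A := (MulAut.conjNormal : G →* MulAut A) x

theorem cj_coe (x : G) (a : A) : ((cj x a : A) : G) = x * a * x⁻¹ := MulAut.conjNormal_apply x a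

theorem cj_mul (x y : G) (a : A) : cj (x * y) a = cj x (cj y a) := by
  simp [cj, MulAut.mul_apply]

theorem cj_gam (hA : Good A) {u : G} (hu : u ∈ gam G 1) (a : A) : cj u a = a := by
  apply Subtype.ext
  rw [cj_coe, ← hA.cent a a.2 u hu]
  group

theorem cj_comm (hA : Good A) (x c : G) (a : A) : cj x (cj c a) = cj c (cj x a) := by
  have h2 : x * c = ⁅x, c⁆ * (c * x) := by rw [commutatorElement_def]; group
  rw [← cj_mul, h2, cj_mul, cj_gam hA (comm_mem_left (n := 0) (Subgroup.mem_top x) c), cj_mul]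

theorem restr_cj (hA : Good A) {γ : MulAut G} (hγ : γ ∈ AutC G) (x : G) (a : A) :
    restr A γ hγ (cj x a) = cj x (restr A γ hγ a) := by
  have h0 : γ x * x⁻¹ ∈ gam G 1 := deep_of_autC γ hγ 0 x (by simp [gam])
  have h1 : restr A γ hγ (cj x a) = cj (γ x) (restr A γ hγ a) := by
    apply Subtype.ext
    rw [cj_coe]
    change γ (cj x a : G) = γ x * γ a * (γ x)⁻¹
    rw [cj_coe, map_mul, map_mul, map_inv]
  have h2 : γ x = (γ x * x⁻¹) * x := by group
  rw [h1, h2, cj_mul, cj_gam hA h0]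

/-- `W` is the function `x ↦ w(x) x⁻¹` -/
def IsW (w : MulAut G) (W : G → A) : Prop := ∀ x, (W x : G) = w x * x⁻¹

theorem W_gam (hA : Good A) {w : MulAut G} (hw : SimA A w) {W : G → A} (hW : IsW w W)
    {u : G} (hu : u ∈ gam G 1) (x : G) : W (u * x) = W x := by
  apply Subtype.ext
  rw [hW, map_mul, hw.fix' hA hu]
  have h1 : w x = (W x : G) * x := by rw [hW]; simp
  rw [h1]
  have h2 := hA.cent _ (W x).2 u hu
  calc u * ((W x : G) * x) * (u * x)⁻¹ = (u * (W x : G)) * u⁻¹ := by group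
    _ = (W x : G) := by rw [← h2]; group

theorem W_mul {w : MulAut G} {W : G → A} (hW : IsW w W) (x c : G) :
    W (x * c) = W x * cj x (W c) := by
  apply Subtype.ext
  rw [hW, Subgroup.coe_mul, cj_coe, hW, hW, map_mul]
  group

theorem A_comm (hA : Good A) (a b : A) : a * b = b * a := Subtype.ext (hA.comm a a.2 b b.2)

theorem W_comm (hA : Good A) {w : MulAut G} (hw : SimA A w) {W : G → A} (hW : IsW w W)
    (x c : G) : W x * (cj c (W x))⁻¹ = W c * (cj x (W c))⁻¹ := by
  have h1 : W (x * c) = W (c * x) := by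
    have h2 : x * c = ⁅x, c⁆ * (c * x) := by rw [commutatorElement_def]; group
    rw [h2]
    exact W_gam hA hw hW (comm_mem_left (n := 0) (Subgroup.mem_top x) c) _
  rw [W_mul hW, W_mul hW] at h1
  have hc := A_comm hA
  set p := W x
  set q := W c
  set p' := cj c p
  set q' := cj x q
  calc p * p'⁻¹ = p * q' * q'⁻¹ * p'⁻¹ := by group
    _ = q * p' * q'⁻¹ * p'⁻¹ := by rw [h1]
    _ = q * (p' * q'⁻¹) * p'⁻¹ := by group
    _ = q * (q'⁻¹ * p') * p'⁻¹ := by rw [hc p']
    _ = q * q'⁻¹ := by group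

/-- at every point `W` is a commutator with an element of `A` -/
theorem W_sim {w : MulAut G} (hw : SimA A w) {W : G → A} (hW : IsW w W) (x : G) :
    ∃ z : A, W x = z * (cj x z)⁻¹ := by
  obtain ⟨z, hz, hz'⟩ := hw x
  refine ⟨⟨z, hz⟩, ?_⟩
  apply Subtype.ext
  rw [hW, hz', Subgroup.coe_mul, Subgroup.coe_inv, cj_coe]
  group

/-- the function attached to a commutator -/
theorem W_commutator (hA : Good A) {w γ : AutC G} (hw : SimA A (w : MulAut G))
    {W : G → A} (hW : IsW (w : MulAut G) W) {V : G → A}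
    (hV : IsW ((⁅w, γ⁆ : AutC G) : MulAut G) V) (x : G) :
    V x = W x * (restr A (γ : MulAut G) γ.2 (W x))⁻¹ := by
  rw [A_comm hA]
  set r := restr A (γ : MulAut G) γ.2 with hr
  have hrv : ∀ a : A, ((r a : A) : G) = (γ : MulAut G) (a : G) := fun a => rfl
  apply Subtype.ext
  rw [hV, Subgroup.coe_mul, Subgroup.coe_inv, hrv]
  set h : G := ((γ : MulAut G)⁻¹) x with hh
  have hb : h * x⁻¹ ∈ gam G 1 :=
    deep_of_autC _ ((AutC G).inv_mem γ.2) 0 x (by simp [gam])
  have hWh : W h = W x := by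
    have h1 : h = (h * x⁻¹) * x := by group
    rw [h1]
    exact W_gam hA hw hW hb x
  have h2 : ((w : MulAut G)⁻¹) h = (W x : G)⁻¹ * h := by
    have h3 : (w : MulAut G) ((W x : G)⁻¹ * h) = h := by
      rw [map_mul, map_inv, hw.fix hA (W x).2]
      have h4 : (w : MulAut G) h = (W h : G) * h := by rw [hW]; simp
      rw [h4, hWh]
      group
    conv_lhs => rw [← h3]
    exact MulAut.inv_apply_self _ _ _
  have h5 : ((⁅w, γ⁆ : AutC G) : MulAut G) x
      = (w : MulAut G) ((γ : MulAut G) (((w : MulAut G)⁻¹) h)) := rfl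
  have h6 : (γ : MulAut G) h = x := by rw [hh, MulAut.apply_inv_self]
  have h7 : (w : MulAut G) ((γ : MulAut G) (W x : G)) = (γ : MulAut G) (W x : G) :=
    hw.fix hA (r (W x)).2
  rw [h5, h2, map_mul, map_inv, h6, map_mul, map_inv, h7, hW x]
  group

/-- commutators of `SimA`-automorphisms with class-preserving ones are `SimA` -/
theorem sim_commutator (hA : Good A) {w γ : AutC G} (hw : SimA A (w : MulAut G)) :
    SimA A ((⁅w, γ⁆ : AutC G) : MulAut G) := by
  have hmem : ∀ x, ((⁅w, γ⁆ : AutC G) : MulAut G) x * x⁻¹ ∈ A := by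
    intro x
    -- `[w,γ] x x⁻¹ = w(y) y⁻¹ ...`
    set h : G := ((γ : MulAut G)⁻¹) x with hh
    have h5 : ((⁅w, γ⁆ : AutC G) : MulAut G) x
        = (w : MulAut G) ((γ : MulAut G) (((w : MulAut G)⁻¹) h)) := rfl
    have hwinv : ((w : MulAut G)⁻¹) h * h⁻¹ ∈ A := by
      set k := ((w : MulAut G)⁻¹) h with hk
      have h1 : (w : MulAut G) k = h := by rw [hk, MulAut.apply_inv_self]
      have h2 := hw.mem k
      rw [h1] at h2
      have h3 := A.inv_mem h2
      simpa using h3
    have h6 : (γ : MulAut G) h = x := by rw [hh, MulAut.apply_inv_self]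
    have h7 : (γ : MulAut G) (((w : MulAut G)⁻¹) h) * x⁻¹ ∈ A := by
      have h8 : (γ : MulAut G) (((w : MulAut G)⁻¹) h) * x⁻¹
          = (γ : MulAut G) (((w : MulAut G)⁻¹) h * h⁻¹) := by
        rw [map_mul, map_inv, h6]
      rw [h8]
      exact (restr A (γ : MulAut G) γ.2 ⟨_, hwinv⟩).2
    have h9 := hw.mem ((γ : MulAut G) (((w : MulAut G)⁻¹) h))
    rw [h5]
    have h10 := A.mul_mem h9 h7
    simpa [mul_assoc] using h10
  intro x
  set W : G → A := fun x => ⟨(w : MulAut G) x * x⁻¹, hw.mem x⟩ with hWdef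
  have hW : IsW (w : MulAut G) W := fun x => rfl
  set V : G → A := fun x => ⟨((⁅w, γ⁆ : AutC G) : MulAut G) x * x⁻¹, hmem x⟩ with hVdef
  have hV : IsW ((⁅w, γ⁆ : AutC G) : MulAut G) V := fun x => rfl
  obtain ⟨z, hz⟩ := W_sim hw hW x
  set r := restr A (γ : MulAut G) γ.2 with hr
  have h1 := W_commutator hA hw hW hV x
  rw [hz, map_mul, map_inv, restr_cj hA] at h1
  refine ⟨(z * (r z)⁻¹ : A), (z * (r z)⁻¹ : A).2, ?_⟩
  have h2 : V x = (z * (r z)⁻¹) * (cj x (z * (r z)⁻¹))⁻¹ := by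
    rw [h1, map_mul, map_inv, ← hr]
    have hc := A_comm hA
    simp only [mul_inv_rev, inv_inv]
    calc z * (cj x z)⁻¹ * (cj x (r z) * (r z)⁻¹)
        = z * ((cj x z)⁻¹ * (cj x (r z) * (r z)⁻¹)) :=
          mul_assoc _ _ _
      _ = z * ((cj x (r z) * (r z)⁻¹) * (cj x z)⁻¹) := by rw [hc (cj x z)⁻¹]
      _ = z * ((r z)⁻¹ * cj x (r z) * (cj x z)⁻¹) := by rw [hc (cj x (r z))]
      _ = z * (r z)⁻¹ * (cj x (r z) * (cj x z)⁻¹) := by simp only [mul_assoc]
  have h3 := congrArg Subtype.val h2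
  have h4 : ((⁅w, γ⁆ : AutC G) : MulAut G) x = (V x : G) * x := by rw [hV]; simp
  rw [h4, h3, Subgroup.coe_mul, Subgroup.coe_inv, cj_coe]
  group

end Pool.Agent.Helper973_Meta.Loc
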