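import Mathlib
import Pool.Agent.Helper973_OutC.Base
import Pool.Agent.Helper973_Meta.Dual
import Pool.Agent.Helper973_Meta.Local

/-!
Characters of `A`: relations of arbitrary length are killed by double commutators
`⁅⁅w, γ⁆, γ'⁆` with `w` simulated by `A`.
-/

set_option autoImplicit false

namespace Pool.Agent.Helper973_Meta.Loc

open Subgroup Pool.Agent.Helper973_OutC
open scoped commutatorElement

variable {G : Type*} [Group G] {A : Subgroup G} [A.Normal]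

/-- `c` is a multiplier of `γ` at the character `θ` -/
def Mult (γ : MulAut G) (hγ : γ ∈ AutC G) (θ : A →* ℂˣ) (c : G) : Prop :=
  ∀ a : A, θ (restr A γ hγ a) = θ (cj c a)

theorem exists_mult [Finite G] {γ : MulAut G} (hγ : γ ∈ AutC G) (θ : A →* ℂˣ) :
    ∃ c : G, Mult γ hγ θ c := by
  refine dual_local (MulAut.conjNormal : G →* MulAut A) (restr A γ hγ) ?_ θ
  intro a
  obtain ⟨y, hy⟩ := isConj_iff.1 (hγ (a : G))
  refine ⟨y, ?_⟩
  apply Subtype.ext
  rw [MulAut.conjNormal_apply, hy]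
  rfl

/-- the character `a ↦ θ (a (a^e)⁻¹)` -/
def mu (θ : A →* ℂˣ) (e : G) : A →* ℂˣ := θ * (θ.comp (cj e : MulAut A).toMonoidHom)⁻¹

theorem mu_apply (θ : A →* ℂˣ) (e : G) (a : A) : mu θ e a = θ a * (θ (cj e a))⁻¹ := rfl

theorem mu_apply' (θ : A →* ℂˣ) (e : G) (a : A) : mu θ e a = θ (a * (cj e a)⁻¹) := by
  rw [mu_apply, map_mul, map_inv]

theorem Mult.mu (hA : Good A) {γ : MulAut G} {hγ : γ ∈ AutC G} {θ : A →* ℂˣ} {c : G}
    (h : Mult γ hγ θ c) (e : G) : Mult γ hγ (mu θ e) c := by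
  intro a
  rw [mu_apply, mu_apply, ← restr_cj hA, h, h, cj_comm hA]

theorem well {w : MulAut G} (hw : SimA A w) {W : G → A} (hW : IsW w W) (θ : A →* ℂˣ)
    {c c' : G} (h : ∀ a : A, θ (cj c a) = θ (cj c' a)) : θ (W c) = θ (W c') := by
  have h1 : c' = c * (c⁻¹ * c') := by group
  obtain ⟨z, hz⟩ := W_sim hw hW (c⁻¹ * c')
  rw [h1, W_mul hW, hz, map_mul θ, map_mul (cj c), map_inv, map_mul θ, map_inv, ← cj_mul, ← h1,
    ← h z, mul_inv_cancel, mul_one]

theorem eval_commutator (hA : Good A) {w γ : AutC G} (hw : SimA A (w : MulAut G))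
    {W : G → A} (hW : IsW (w : MulAut G) W) {V : G → A}
    (hV : IsW ((⁅w, γ⁆ : AutC G) : MulAut G) V) {θ : A →* ℂˣ} {c : G}
    (hc : Mult (γ : MulAut G) γ.2 θ c) (e : G) : θ (V e) = mu θ e (W c) := by
  rw [mu_apply', ← W_comm hA hw hW e c, W_commutator hA hw hW hV, map_mul, map_inv, map_mul,
    map_inv, hc]

theorem two_term [Finite G] (hA : Good A) {w γ : AutC G} (hw : SimA A (w : MulAut G))
    {V : G → A} (hV : IsW ((⁅w, γ⁆ : AutC G) : MulAut G) V) (e₁ e₂ : G) (θ₁ θ₂ : A →* ℂˣ)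
    (h : ∀ a, mu θ₁ e₁ a * mu θ₂ e₂ a = 1) : θ₁ (V e₁) * θ₂ (V e₂) = 1 := by
  set W : G → A := fun x => ⟨(w : MulAut G) x * x⁻¹, hw.mem x⟩ with hWdef
  have hW : IsW (w : MulAut G) W := fun x => rfl
  obtain ⟨c₁, hc₁⟩ := exists_mult γ.2 θ₁
  obtain ⟨c₂, hc₂⟩ := exists_mult γ.2 θ₂
  rw [eval_commutator hA hw hW hV hc₁, eval_commutator hA hw hW hV hc₂]
  have h1 : mu θ₁ e₁ (W c₁) = mu θ₁ e₁ (W c₂) := by
    refine well hw hW _ ?_
    intro a
    rw [← hc₁.mu hA e₁ a]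
    have h2 := h (restr A (γ : MulAut G) γ.2 a)
    have h3 := h (cj c₂ a)
    rw [hc₂.mu hA e₂ a] at h2
    rw [← h3] at h2
    exact mul_right_cancel h2
  rw [h1]
  exact h _

theorem phi_mul (hA : Good A) {v : MulAut G} {V : G → A} (hV : IsW v V)
    (two : ∀ (e₁ e₂ : G) (θ₁ θ₂ : A →* ℂˣ), (∀ a, mu θ₁ e₁ a * mu θ₂ e₂ a = 1) →
      θ₁ (V e₁) * θ₂ (V e₂) = 1)
    {γ : MulAut G} {hγ : γ ∈ AutC G} {θ₁ θ₂ : A →* ℂˣ} {c₁ c₂ c : G}
    (h₁ : Mult γ hγ θ₁ c₁) (h₂ : Mult γ hγ θ₂ c₂) (h : Mult γ hγ (θ₁ * θ₂) c) :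
    θ₁ (V c₁) * θ₂ (V c₂) = (θ₁ * θ₂) (V c) := by
  have key : ∀ (d : G), V d = V c * cj c (V (c⁻¹ * d)) := by
    intro d
    rw [← W_mul hV]
    congr 1
    group
  have hmu : ∀ (θ : A →* ℂˣ) (d : G) (a : A),
      mu (θ.comp (cj c : MulAut A).toMonoidHom) (c⁻¹ * d) a = θ (cj c a) * (θ (cj d a))⁻¹ := by
    intro θ d a
    rw [mu_apply]
    change θ (cj c a) * (θ (cj c (cj (c⁻¹ * d) a)))⁻¹ = _
    rw [← cj_mul]
    congr 4
    group
  have h3 := two (c⁻¹ * c₁) (c⁻¹ * c₂) (θ₁.comp (cj c : MulAut A).toMonoidHom)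
    (θ₂.comp (cj c : MulAut A).toMonoidHom) (by
      intro a
      rw [hmu, hmu, ← h₁ a, ← h₂ a]
      have h4 := h a
      rw [MonoidHom.mul_apply, MonoidHom.mul_apply] at h4
      calc θ₁ (cj c a) * (θ₁ (restr A γ hγ a))⁻¹ * (θ₂ (cj c a) * (θ₂ (restr A γ hγ a))⁻¹)
          = (θ₁ (cj c a) * θ₂ (cj c a)) * (θ₁ (restr A γ hγ a) * θ₂ (restr A γ hγ a))⁻¹ := by
            rw [mul_inv, mul_mul_mul_comm]
        _ = 1 := by rw [h4, mul_inv_cancel])
  change θ₁ (cj c (V (c⁻¹ * c₁))) * θ₂ (cj c (V (c⁻¹ * c₂))) = 1 at h3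
  rw [key c₁, key c₂, map_mul, map_mul, MonoidHom.mul_apply, mul_mul_mul_comm, h3, mul_one]

/-- duality: a family in `A` on which all relations are trivial is a family of commutators -/
theorem exists_of_rel [Finite G] (hA : Good A) {ι : Type*} [Fintype ι]
    (g : ι → G) (f : ι → A)
    (h : ∀ η : ι → (A →* ℂˣ), (∀ a, ∏ k, mu (η k) (g k) a = 1) → ∏ k, η k (f k) = 1) :
    ∃ a : A, ∀ k, f k = a * (cj (g k) a)⁻¹ := by
  classical
  have hc : ∀ a b : A, a * b = b * a := A_comm hA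
  let _ : CommGroup A := { (inferInstance : Group A) with mul_comm := hc }
  let Φ : A →* (ι → A) :=
    { toFun := fun a k => a * (cj (g k) a)⁻¹
      map_one' := by
        funext k
        simp
      map_mul' := by
        intro a b
        funext k
        change a * b * (cj (g k) (a * b))⁻¹
          = (a * (cj (g k) a)⁻¹) * (b * (cj (g k) b)⁻¹)
        rw [map_mul, mul_inv_rev, mul_assoc a b, ← mul_assoc b, mul_assoc a, hc (_ * _), ← mul_assoc] }
  have hexp : NeZero (Monoid.exponent (ι → A)) :=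
    ⟨(Monoid.exponent_pos_of_exists (Nat.card (ι → A)) Nat.card_pos
      (fun g => pow_card_eq_one')).ne'⟩
  have key : f ∈ Φ.range := by
    rw [← CommGroup.forall_monoidHom_apply_eq_one_iff (M := ℂ)]
    intro ψ hψ
    have hdec : ∀ x : ι → A, ψ x = ∏ k, ψ (Pi.mulSingle k (x k)) := by
      intro x
      rw [← map_prod, Finset.univ_prod_mulSingle]
    rw [hdec]
    refine h (fun k => ψ.comp (MonoidHom.mulSingle (fun _ => A) k)) ?_
    intro a
    have h1 := hψ (Φ a) ⟨a, rfl⟩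
    rw [hdec] at h1
    simp only [mu_apply']
    exact h1
  obtain ⟨a, ha⟩ := key
  exact ⟨a, fun k => (congrFun ha k).symm⟩

/-- double commutators are inner -/
theorem double_commutator [Finite G] (hA : Good A) {w γ γ' : AutC G}
    (hw : SimA A (w : MulAut G)) : ⁅⁅w, γ⁆, γ'⁆ ∈ InnC G := by
  classical
  cases nonempty_fintype G
  have hv : SimA A ((⁅w, γ⁆ : AutC G) : MulAut G) := sim_commutator hA hw
  have hu : SimA A ((⁅⁅w, γ⁆, γ'⁆ : AutC G) : MulAut G) := sim_commutator hA hv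
  set V : G → A := fun x => ⟨((⁅w, γ⁆ : AutC G) : MulAut G) x * x⁻¹, hv.mem x⟩ with hVdef
  have hV : IsW ((⁅w, γ⁆ : AutC G) : MulAut G) V := fun x => rfl
  set U : G → A := fun x => ⟨((⁅⁅w, γ⁆, γ'⁆ : AutC G) : MulAut G) x * x⁻¹, hu.mem x⟩ with hUdef
  have hU : IsW ((⁅⁅w, γ⁆, γ'⁆ : AutC G) : MulAut G) U := fun x => rfl
  have two := two_term hA hw hV
  choose C hC using fun θ : A →* ℂˣ => exists_mult γ'.2 θ
  let Φ : (A →* ℂˣ) →* ℂˣ :=
    { toFun := fun θ => θ (V (C θ))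
      map_one' := rfl
      map_mul' := by
        intro θ₁ θ₂
        exact (phi_mul hA hV two (hC θ₁) (hC θ₂) (hC (θ₁ * θ₂))).symm }
  obtain ⟨a, ha⟩ := exists_of_rel hA (fun x : G => x) U (by
    intro η hη
    have h1 : ∀ x, η x (U x) = Φ (mu (η x) x) := by
      intro x
      rw [eval_commutator hA hv hV hU (hC (η x)) x]
      change mu (η x) x (V (C (η x))) = mu (η x) x (V (C (mu (η x) x)))
      refine well hv hV _ ?_
      intro b
      rw [← (hC (η x)).mu hA x b, hC (mu (η x) x) b]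
    have h2 : ∏ x, mu (η x) x = 1 := by
      ext b
      have h3 := hη b
      rw [MonoidHom.finsetProd_apply, h3]
      rfl
    simp only [h1]
    rw [← map_prod, h2, map_one])
  refine ⟨(a : G), ?_⟩
  ext x
  change (a : G) * x * (a : G)⁻¹ = ((⁅⁅w, γ⁆, γ'⁆ : AutC G) : MulAut G) x
  have h4 : ((⁅⁅w, γ⁆, γ'⁆ : AutC G) : MulAut G) x = (U x : G) * x := by rw [hU]; simp
  rw [h4, ha x, Subgroup.coe_mul, Subgroup.coe_inv, cj_coe]
  group

end Pool.Agent.Helper973_Meta.Loc
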