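import Mathlib
import Pool.Agent.Helper973_OutC.Base
import Pool.Agent.Helper973_Meta.Dual

/-!
Relations between characters of an abelian normal subgroup `A` with `G / A` abelian, and their
values on the inert class-preserving automorphisms.
-/

set_option autoImplicit false

namespace Pool.Agent.Helper973_Meta

open Subgroup Pool.Agent.Helper973_OutC
open scoped commutatorElement

variable {G : Type*} [Group G]

/-- `w` fixes `A` pointwise and is simulated at every point by an element of `A` -/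
def Inert (A : Subgroup G) (w : MulAut G) : Prop :=
  (∀ a ∈ A, w a = a) ∧ ∀ g : G, ∃ z ∈ A, w g = z * g * z⁻¹

/-- a relation of length `n` between characters of `A` -/
def Rel (A : Subgroup G) [A.Normal] {n : ℕ} (g : Fin n → G) (η : Fin n → (A →* ℂˣ)) : Prop :=
  ∀ a : A, ∏ k, η k (a * (MulAut.conjNormal (g k) a)⁻¹) = 1

/-- the values of `w` on all relations of length `n` are trivial -/
def Vanish (A : Subgroup G) [A.Normal] (n : ℕ) (w : MulAut G) : Prop :=
  ∀ W : G → A, (∀ x, (W x : G) = w x * x⁻¹) →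
    ∀ (g : Fin n → G) (η : Fin n → (A →* ℂˣ)), Rel A g η → ∏ k, η k (W (g k)) = 1

theorem Inert.mem {A : Subgroup G} [hn : A.Normal] {w : MulAut G} (h : Inert A w) (x : G) :
    w x * x⁻¹ ∈ A := by
  obtain ⟨z, hz, hz'⟩ := h.2 x
  rw [hz']
  have : z * x * z⁻¹ * x⁻¹ = z * (x * z⁻¹ * x⁻¹) := by group
  rw [this]
  exact A.mul_mem hz (hn.conj_mem _ (A.inv_mem hz) x)

/-- the subgroup of inert class-preserving automorphisms with trivial values on relations of
length `n` -/
def KK (A : Subgroup G) [A.Normal] (n : ℕ) : Subgroup (AutC G) where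
  carrier := {w | Inert A (w : MulAut G) ∧ Vanish A n (w : MulAut G)}
  one_mem' := by
    refine ⟨⟨fun a _ => rfl, fun g => ⟨1, A.one_mem, by simp⟩⟩, ?_⟩
    intro W hW g η _
    have h1 : ∀ x, W x = 1 := by
      intro x
      apply Subtype.ext
      rw [hW]
      simp
    simp [h1]
  mul_mem' := by
    rintro w v ⟨⟨hw1, hw2⟩, hw⟩ ⟨⟨hv1, hv2⟩, hv⟩
    have hwI : Inert A (w : MulAut G) := ⟨hw1, hw2⟩
    have hvI : Inert A (v : MulAut G) := ⟨hv1, hv2⟩
    refine ⟨⟨?_, ?_⟩, ?_⟩
    · intro a ha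
      change (w : MulAut G) ((v : MulAut G) a) = a
      rw [hv1 a ha, hw1 a ha]
    · intro g
      obtain ⟨z, hz, hz'⟩ := hw2 g
      obtain ⟨y, hy, hy'⟩ := hv2 g
      refine ⟨y * z, A.mul_mem hy hz, ?_⟩
      change (w : MulAut G) ((v : MulAut G) g) = _
      rw [hy', map_mul, map_mul, map_inv, hw1 y hy, hz']
      group
    · intro W hW g η hR
      set Ww : G → A := fun x => ⟨(w : MulAut G) x * x⁻¹, hwI.mem x⟩ with hWw
      set Wv : G → A := fun x => ⟨(v : MulAut G) x * x⁻¹, hvI.mem x⟩ with hWv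
      have h1 : ∀ x, W x = Wv x * Ww x := by
        intro x
        apply Subtype.ext
        rw [hW]
        change (w : MulAut G) ((v : MulAut G) x) * x⁻¹ = ((v : MulAut G) x * x⁻¹) * ((w : MulAut G) x * x⁻¹)
        have h2 := hw1 _ (hvI.mem x)
        have h3 : (w : MulAut G) ((v : MulAut G) x)
            = (w : MulAut G) ((v : MulAut G) x * x⁻¹) * (w : MulAut G) x := by
          rw [← map_mul]; simp
        rw [h3, h2]
        group
      have e1 := hw Ww (fun x => rfl) g η hR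
      have e2 := hv Wv (fun x => rfl) g η hR
      simp only [h1, map_mul, Finset.prod_mul_distrib, e1, e2, mul_one]
  inv_mem' := by
    rintro w ⟨⟨hw1, hw2⟩, hw⟩
    have hwI : Inert A (w : MulAut G) := ⟨hw1, hw2⟩
    have hfix : ∀ a ∈ A, ((w : MulAut G)⁻¹) a = a := by
      intro a ha
      conv_lhs => rw [← hw1 a ha]
      exact MulAut.inv_apply_self _ _ _
    refine ⟨⟨hfix, ?_⟩, ?_⟩
    · intro g
      obtain ⟨z, hz, hz'⟩ := hw2 g
      refine ⟨z⁻¹, A.inv_mem hz, ?_⟩
      change ((w : MulAut G)⁻¹) g = _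
      have h1 : g = z * ((w : MulAut G)⁻¹) g * z⁻¹ := by
        have h2 : ((w : MulAut G)⁻¹) ((w : MulAut G) g) = ((w : MulAut G)⁻¹) (z * g * z⁻¹) := by
          rw [hz']
        rw [MulAut.inv_apply_self, map_mul, map_mul, map_inv, hfix z hz] at h2
        exact h2
      calc ((w : MulAut G)⁻¹) g = z⁻¹ * (z * ((w : MulAut G)⁻¹) g * z⁻¹) * z := by group
        _ = z⁻¹ * g * z := by rw [← h1]
        _ = _ := by rw [inv_inv]
    · intro W hW g η hR
      set Ww : G → A := fun x => ⟨(w : MulAut G) x * x⁻¹, hwI.mem x⟩ with hWw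
      have h1 : ∀ x, Ww x = (W x)⁻¹ := by
        intro x
        have h2 : W x * Ww x = 1 := by
          apply Subtype.ext
          have h3 : ((w : MulAut G)) (W x : G) = W x := hw1 _ (W x).2
          have h4 : (W x : G) * x = ((w : MulAut G)⁻¹) x := by
            rw [hW]; simp
          have h5 : (w : MulAut G) ((W x : G) * x) = x := by
            rw [h4, MulAut.apply_inv_self]
          rw [map_mul, h3] at h5
          change (W x : G) * ((w : MulAut G) x * x⁻¹) = 1
          rw [← mul_assoc, h5, mul_inv_cancel]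
        exact eq_inv_of_mul_eq_one_right h2
      have e1 := hw Ww (fun x => rfl) g η hR
      simp only [h1, map_inv, Finset.prod_inv_distrib, inv_eq_one] at e1
      exact e1

/-- commutators of class-preserving automorphisms are inert and trivial on relations of length 1 -/
theorem lcs_one_le (A : Subgroup G) [A.Normal] (hA : ∀ a ∈ A, ∀ b ∈ A, a * b = b * a)
    (hG : gam G 1 ≤ A) : (⊤ : Subgroup (AutC G)).lowerCentralSeries 1 ≤ KK A 1 := by
  intro w hw
  have h : ∀ x, ∃ z ∈ A, (w : MulAut G) x = z * x * z⁻¹ := by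
    intro x
    obtain ⟨_, z, hz, hz'⟩ := lcs_le_SimAt x 1 hw
    exact ⟨z, hG hz, hz'⟩
  refine ⟨⟨?_, h⟩, ?_⟩
  · intro a ha
    obtain ⟨z, hz, hz'⟩ := h a
    rw [hz', hA z hz a ha]
    group
  · intro W hW g η hR
    obtain ⟨z, hz, hz'⟩ := h (g 0)
    have h1 := hR ⟨z, hz⟩
    simp only [Fin.prod_univ_one] at h1 ⊢
    rw [← h1]
    congr 1
    apply Subtype.ext
    rw [hW, hz']
    simp only [Subgroup.coe_mul, Subgroup.coe_inv, MulAut.conjNormal_apply]
    group

theorem W_mul_left {A : Subgroup G} {w : MulAut G} (hA : ∀ a ∈ A, ∀ b ∈ A, a * b = b * a)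
    (hw : ∀ a ∈ A, w a = a) {W : G → A} (hW : ∀ x, (W x : G) = w x * x⁻¹) {b : G} (hb : b ∈ A)
    (x : G) : W (b * x) = W x := by
  apply Subtype.ext
  rw [hW, map_mul, hw b hb]
  have h1 : w x = (W x : G) * x := by rw [hW]; simp
  rw [h1]
  have h2 := hA b hb _ (W x).2
  calc b * ((W x : G) * x) * (b * x)⁻¹ = (b * (W x : G)) * b⁻¹ := by group
    _ = (W x : G) := by rw [h2]; group

theorem W_mul {A : Subgroup G} [A.Normal] {w : MulAut G} {W : G → A}
    (hW : ∀ x, (W x : G) = w x * x⁻¹) (x c : G) :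
    W (x * c) = W x * MulAut.conjNormal x (W c) := by
  apply Subtype.ext
  rw [hW, Subgroup.coe_mul, MulAut.conjNormal_apply, hW, hW, map_mul]
  group

theorem W_comm {A : Subgroup G} [A.Normal] {w : MulAut G}
    (hA : ∀ a ∈ A, ∀ b ∈ A, a * b = b * a) (hG : gam G 1 ≤ A)
    (hw : ∀ a ∈ A, w a = a) {W : G → A} (hW : ∀ x, (W x : G) = w x * x⁻¹) (x c : G) :
    W x * (MulAut.conjNormal c (W x))⁻¹ = W c * (MulAut.conjNormal x (W c))⁻¹ := by
  have h1 : W (x * c) = W (c * x) := by
    have h2 : x * c = ⁅x, c⁆ * (c * x) := by rw [commutatorElement_def]; group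
    rw [h2]
    refine W_mul_left hA hw hW ?_ _
    exact hG (comm_mem_left (n := 0) (Subgroup.mem_top x) c)
  rw [W_mul hW, W_mul hW] at h1
  have hc : ∀ a b : A, a * b = b * a := fun a b => Subtype.ext (hA a a.2 b b.2)
  set p := W x
  set q := W c
  set p' := MulAut.conjNormal c p
  set q' := MulAut.conjNormal x q
  -- p q' = q p'
  calc p * p'⁻¹ = p * q' * q'⁻¹ * p'⁻¹ := by group
    _ = q * p' * q'⁻¹ * p'⁻¹ := by rw [h1]
    _ = q * (p' * q'⁻¹) * p'⁻¹ := by group
    _ = q * (q'⁻¹ * p') * p'⁻¹ := by rw [hc p']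
    _ = q * q'⁻¹ := by group

theorem conj_conj {A : Subgroup G} [A.Normal]
    (hA : ∀ a ∈ A, ∀ b ∈ A, a * b = b * a) (hG : gam G 1 ≤ A) (x c : G) (a : A) :
    MulAut.conjNormal x (MulAut.conjNormal c a) = MulAut.conjNormal c (MulAut.conjNormal x a) := by
  apply Subtype.ext
  rw [MulAut.conjNormal_apply, MulAut.conjNormal_apply, MulAut.conjNormal_apply,
    MulAut.conjNormal_apply]
  have h2 : x * c = ⁅x, c⁆ * (c * x) := by rw [commutatorElement_def]; group
  have hm : ⁅x, c⁆ ∈ A := hG (comm_mem_left (n := 0) (Subgroup.mem_top x) c)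
  have hb : (c * x) * (a : G) * (c * x)⁻¹ ∈ A := (inferInstance : A.Normal).conj_mem _ a.2 _
  have h3 := hA _ hm _ hb
  calc x * (c * (a : G) * c⁻¹) * x⁻¹ = (x * c) * (a : G) * (x * c)⁻¹ := by group
    _ = ⁅x, c⁆ * ((c * x) * (a : G) * (c * x)⁻¹) * ⁅x, c⁆⁻¹ := by rw [h2]; group
    _ = (c * x) * (a : G) * (c * x)⁻¹ := by rw [h3]; group
    _ = _ := by group

/-- a class-preserving automorphism restricted to a normal subgroup -/
def restr (A : Subgroup G) [hn : A.Normal] (γ : MulAut G) (hγ : γ ∈ AutC G) : A →* A where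
  toFun a := ⟨γ a, by
    obtain ⟨y, hy⟩ := isConj_iff.1 (hγ a)
    rw [← hy]
    exact hn.conj_mem _ a.2 y⟩
  map_one' := by apply Subtype.ext; simp
  map_mul' a b := by apply Subtype.ext; simp

theorem restr_conj {A : Subgroup G} [A.Normal]
    (hA : ∀ a ∈ A, ∀ b ∈ A, a * b = b * a) (hG : gam G 1 ≤ A) {γ : MulAut G} (hγ : γ ∈ AutC G)
    (x : G) (a : A) :
    restr A γ hγ (MulAut.conjNormal x a) = MulAut.conjNormal x (restr A γ hγ a) := by
  apply Subtype.ext
  rw [MulAut.conjNormal_apply]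
  change γ (MulAut.conjNormal x a : G) = x * γ a * x⁻¹
  rw [MulAut.conjNormal_apply, map_mul, map_mul, map_inv]
  have h0 := deep_of_autC γ hγ 0 x (by simp [gam])
  have hm : γ x * x⁻¹ ∈ A := hG h0
  have hb : x * γ (a : G) * x⁻¹ ∈ A :=
    (inferInstance : A.Normal).conj_mem _ (restr A γ hγ a).2 _
  have h3 := hA _ hm _ hb
  calc γ x * γ (a : G) * (γ x)⁻¹
      = (γ x * x⁻¹) * (x * γ (a : G) * x⁻¹) * (γ x * x⁻¹)⁻¹ := by group
    _ = x * γ (a : G) * x⁻¹ := by rw [h3]; group

theorem step [Finite G] {A : Subgroup G} [A.Normal]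
    (hA : ∀ a ∈ A, ∀ b ∈ A, a * b = b * a) (hG : gam G 1 ≤ A) {n : ℕ} {w γ : AutC G}
    (hw : w ∈ KK A n) : ⁅w, γ⁆ ∈ KK A (n + 1) := by
  have hvI : Inert A ((⁅w, γ⁆ : AutC G) : MulAut G) := by
    have h1 : ⁅w, γ⁆ ∈ (⊤ : Subgroup (AutC G)).lowerCentralSeries 1 := by
      rw [Subgroup.lowerCentralSeries_succ]
      exact Subgroup.commutator_mem_commutator (by simp) (by simp)
    exact (lcs_one_le A hA hG h1).1
  refine ⟨hvI, ?_⟩
  obtain ⟨hwI, hwV⟩ := hw
  intro V hV g η hR
  set W : G → A := fun x => ⟨(w : MulAut G) x * x⁻¹, hwI.mem x⟩ with hWdef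
  have hW : ∀ x, (W x : G) = (w : MulAut G) x * x⁻¹ := fun x => rfl
  have hγm : (γ : MulAut G) ∈ AutC G := γ.2
  set r := restr A (γ : MulAut G) hγm with hr
  have hrv : ∀ a : A, ((r a : A) : G) = (γ : MulAut G) (a : G) := fun a => rfl
  -- the function of the commutator
  have hVW : ∀ x, V x = (r (W x))⁻¹ * W x := by
    intro x
    apply Subtype.ext
    rw [hV, Subgroup.coe_mul, Subgroup.coe_inv, hrv]
    set h : G := ((γ : MulAut G)⁻¹) x with hh
    have hb : h * x⁻¹ ∈ A := by
      have := deep_of_autC _ (AutC G |>.inv_mem γ.2) 0 x (by simp [gam])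
      exact hG this
    have hWh : W h = W x := by
      have h1 : h = (h * x⁻¹) * x := by group
      rw [h1]
      exact W_mul_left hA hwI.1 hW hb x
    have h2 : ((w : MulAut G)⁻¹) h = (W x : G)⁻¹ * h := by
      have h3 : (w : MulAut G) ((W x : G)⁻¹ * h) = h := by
        rw [map_mul, map_inv, hwI.1 _ (W x).2]
        have h4 : (w : MulAut G) h = (W h : G) * h := by rw [hW]; simp
        rw [h4, hWh]
        group
      conv_lhs => rw [← h3]
      exact MulAut.inv_apply_self _ _ _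
    have h5 : ((⁅w, γ⁆ : AutC G) : MulAut G) x
        = (w : MulAut G) ((γ : MulAut G) (((w : MulAut G)⁻¹) h)) := rfl
    have h6 : (γ : MulAut G) h = x := by rw [hh, MulAut.apply_inv_self]
    have h7 : (w : MulAut G) ((γ : MulAut G) (W x : G)) = (γ : MulAut G) (W x : G) :=
      hwI.1 _ (r (W x)).2
    rw [h5, h2, map_mul, map_inv, h6, map_mul, map_inv, h7, hW x]
    group
  -- local multipliers
  have hloc : ∀ k : Fin (n + 1), ∃ c : G, ∀ a : A, η k (r a) = η k (MulAut.conjNormal c a) := by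
    intro k
    refine dual_local (MulAut.conjNormal : G →* MulAut A) r ?_ (η k)
    intro a
    obtain ⟨y, hy⟩ := isConj_iff.1 (γ.2 (a : G))
    refine ⟨y, ?_⟩
    apply Subtype.ext
    rw [hrv, MulAut.conjNormal_apply, hy]
  choose c hc using hloc
  set d := c (Fin.last n) with hd
  -- (i)
  have hi : ∏ k, η k (MulAut.conjNormal d (W (g k))) = ∏ k, η k (W (g k)) := by
    have h1 := hR (W d)
    have h2 : ∀ k, η k (W d * (MulAut.conjNormal (g k) (W d))⁻¹)
        = η k (W (g k)) * (η k (MulAut.conjNormal d (W (g k))))⁻¹ := by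
      intro k
      rw [← W_comm hA hG hwI.1 hW (g k) d, map_mul, map_inv]
    simp only [h2] at h1
    rw [Finset.prod_mul_distrib, Finset.prod_inv_distrib] at h1
    exact (mul_inv_eq_one.mp h1).symm
  -- (ii)
  set η' : Fin n → (A →* ℂˣ) := fun k =>
    (η k.castSucc).comp (MulAut.conjNormal (c k.castSucc)).toMonoidHom *
      ((η k.castSucc).comp (MulAut.conjNormal d).toMonoidHom)⁻¹ with hη'
  have hη'a : ∀ k a, η' k a = η k.castSucc (MulAut.conjNormal (c k.castSucc) a) *
      (η k.castSucc (MulAut.conjNormal d a))⁻¹ := fun k a => rfl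
  have hfull : ∀ f : Fin (n + 1) → A, ∏ k : Fin n, η' k (f k.castSucc)
      = (∏ k, η k (r (f k))) * (∏ k, η k (MulAut.conjNormal d (f k)))⁻¹ := by
    intro f
    rw [← Finset.prod_inv_distrib, ← Finset.prod_mul_distrib, Fin.prod_univ_castSucc]
    have h1 : η (Fin.last n) (r (f (Fin.last n))) *
        (η (Fin.last n) (MulAut.conjNormal d (f (Fin.last n))))⁻¹ = 1 := by
      rw [hc, ← hd, mul_inv_cancel]
    rw [h1, mul_one]
    refine Finset.prod_congr rfl (fun k _ => ?_)
    rw [hη'a, hc]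
  have hR' : Rel A (fun k : Fin n => g k.castSucc) η' := by
    intro a
    have h1 := hfull (fun k => a * (MulAut.conjNormal (g k) a)⁻¹)
    rw [h1]
    have h2 : ∏ k, η k (r (a * (MulAut.conjNormal (g k) a)⁻¹)) = 1 := by
      rw [← hR (r a)]
      refine Finset.prod_congr rfl (fun k _ => ?_)
      rw [map_mul r, map_inv r, restr_conj hA hG]
    have h3 : ∏ k, η k (MulAut.conjNormal d (a * (MulAut.conjNormal (g k) a)⁻¹)) = 1 := by
      rw [← hR (MulAut.conjNormal d a)]
      refine Finset.prod_congr rfl (fun k _ => ?_)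
      rw [map_mul (MulAut.conjNormal d), map_inv (MulAut.conjNormal d), conj_conj hA hG]
    rw [h2, h3, inv_one, mul_one]
  have h1 := hwV W hW _ η' hR'
  have h2 := hfull (fun k => W (g k))
  rw [h1, hi] at h2
  have h3 : ∏ k, η k (r (W (g k))) = ∏ k, η k (W (g k)) := (mul_inv_eq_one.mp h2.symm)
  simp only [hVW, map_mul, map_inv, Finset.prod_mul_distrib, Finset.prod_inv_distrib, h3]
  exact inv_mul_cancel _

theorem lcs_le_KK [Finite G] (A : Subgroup G) [A.Normal]
    (hA : ∀ a ∈ A, ∀ b ∈ A, a * b = b * a) (hG : gam G 1 ≤ A) (n : ℕ) :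
    (⊤ : Subgroup (AutC G)).lowerCentralSeries (n + 1) ≤ KK A (n + 1) := by
  induction n with
  | zero => exact lcs_one_le A hA hG
  | succ n ih =>
    rw [Subgroup.lowerCentralSeries_succ, Subgroup.commutator_le]
    intro w hw γ _
    exact step hA hG (ih hw)

end Pool.Agent.Helper973_Meta
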