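import Mathlib
import Pool.Agent.Helper973_OutC.Base
import Pool.Agent.Helper973_Meta.Rel

/-!
The bound by the number of generators modulo an abelian normal subgroup.
-/

set_option autoImplicit false

namespace Pool.Agent.Helper973_Meta.Rank

open Subgroup Pool.Agent.Helper973_OutC Pool.Agent.Helper973_Meta
open scoped commutatorElement

variable {G : Type*} [Group G]

/-- duality: a tuple on which all relations are trivial is a tuple of commutators -/
theorem exists_of_rel [Finite G] {A : Subgroup G} [A.Normal]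
    (hA : ∀ a ∈ A, ∀ b ∈ A, a * b = b * a) {n : ℕ} (g : Fin n → G) (f : Fin n → A)
    (h : ∀ η : Fin n → (A →* ℂˣ), Rel A g η → ∏ k, η k (f k) = 1) :
    ∃ a : A, ∀ k, f k = a * (MulAut.conjNormal (g k) a)⁻¹ := by
  classical
  have hc : ∀ a b : A, a * b = b * a := fun a b => Subtype.ext (hA a a.2 b b.2)
  letI : CommGroup A := { (inferInstance : Group A) with mul_comm := hc }
  let Φ : A →* (Fin n → A) :=
    { toFun := fun a k => a * (MulAut.conjNormal (g k) a)⁻¹
      map_one' := by
        funext k
        simp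
      map_mul' := by
        intro a b
        funext k
        change a * b * (MulAut.conjNormal (g k) (a * b))⁻¹
          = (a * (MulAut.conjNormal (g k) a)⁻¹) * (b * (MulAut.conjNormal (g k) b)⁻¹)
        rw [map_mul, mul_inv_rev, mul_assoc a b, ← mul_assoc b, mul_assoc a, hc (_ * _), ← mul_assoc] }
  have hexp : NeZero (Monoid.exponent (Fin n → A)) :=
    ⟨(Monoid.exponent_pos_of_exists (Nat.card (Fin n → A)) Nat.card_pos
      (fun g => pow_card_eq_one')).ne'⟩
  have key : f ∈ Φ.range := by
    rw [← CommGroup.forall_monoidHom_apply_eq_one_iff (M := ℂ)]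
    intro ψ hψ
    have hdec : ∀ x : Fin n → A, ψ x = ∏ k, ψ (Pi.mulSingle k (x k)) := by
      intro x
      rw [← map_prod, Finset.univ_prod_mulSingle]
    rw [hdec]
    refine h (fun k => ψ.comp (MonoidHom.mulSingle (fun _ => A) k)) ?_
    intro a
    have h1 := hψ (Φ a) ⟨a, rfl⟩
    rw [hdec] at h1
    exact h1
  obtain ⟨a, ha⟩ := key
  exact ⟨a, fun k => (congrFun ha k).symm⟩

theorem lcs_le_InnC [Finite G] (A : Subgroup G) [A.Normal]
    (hA : ∀ a ∈ A, ∀ b ∈ A, a * b = b * a) (hG : gam G 1 ≤ A) (r : ℕ) (g : Fin r → G)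
    (hg : A ⊔ Subgroup.closure (Set.range g) = ⊤) :
    (⊤ : Subgroup (AutC G)).lowerCentralSeries r ≤ InnC G := by
  rcases r with _ | n
  · -- `G = A` is abelian
    have h1 : A = ⊤ := by
      have : Set.range g = ∅ := by
        ext x
        simp
      rw [this, Subgroup.closure_empty, sup_bot_eq] at hg
      exact hg
    intro w _
    refine ⟨1, ?_⟩
    ext x
    obtain ⟨y, hy⟩ := isConj_iff.1 (w.2 x)
    have h2 := hA y (h1 ▸ Subgroup.mem_top y) x (h1 ▸ Subgroup.mem_top x)
    rw [map_one]
    change x = (w : MulAut G) x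
    rw [← hy, h2]
    group
  · intro w hw
    obtain ⟨hwI, hwV⟩ := lcs_le_KK A hA hG n hw
    set W : G → A := fun x => ⟨(w : MulAut G) x * x⁻¹, hwI.mem x⟩ with hWdef
    obtain ⟨a, ha⟩ := exists_of_rel hA g (fun k => W (g k)) (fun η hη => hwV W (fun x => rfl) g η hη)
    have hEq : ∀ x : G, (w : MulAut G) x = (a : G) * x * (a : G)⁻¹ := by
      have hle : A ⊔ Subgroup.closure (Set.range g)
          ≤ ((w : MulAut G) : G ≃* G).toMonoidHom.eqLocus ((MulAut.conj (a : G)) : G ≃* G).toMonoidHom := by
        rw [sup_le_iff, Subgroup.closure_le]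
        constructor
        · intro b hb
          change (w : MulAut G) b = (a : G) * b * (a : G)⁻¹
          rw [hwI.1 b hb, hA a a.2 b hb]
          group
        · rintro _ ⟨k, rfl⟩
          change (w : MulAut G) (g k) = (a : G) * (g k) * (a : G)⁻¹
          have h1 := congrArg Subtype.val (ha k)
          simp only [hWdef, Subgroup.coe_mul, Subgroup.coe_inv, MulAut.conjNormal_apply] at h1
          have h2 : (w : MulAut G) (g k) = ((w : MulAut G) (g k) * (g k)⁻¹) * g k := by group
          rw [h2, h1]
          group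
      rw [hg] at hle
      intro x
      exact hle (Subgroup.mem_top x)
    refine ⟨(a : G), ?_⟩
    ext x
    exact (hEq x).symm

theorem outC_lcs {G : Type*} [Group G] {n : ℕ}
    (h : (⊤ : Subgroup (AutC G)).lowerCentralSeries n ≤ InnC G) :
    (⊤ : Subgroup (OutC G)).lowerCentralSeries n = ⊥ := by
  have h1 : (⊤ : Subgroup (OutC G)) = (⊤ : Subgroup (AutC G)).map (QuotientGroup.mk' (InnC G)) :=
    (Subgroup.map_top_of_surjective _ (QuotientGroup.mk'_surjective _)).symm
  rw [h1, ← Subgroup.map_lowerCentralSeries, Subgroup.map_eq_bot_iff, QuotientGroup.ker_mk']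
  exact h

end Pool.Agent.Helper973_Meta.Rank
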