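import Mathlib
import Pool.Agent.Helper973_OutC.Base
import Pool.Agent.Helper973_Meta.Dual
import Pool.Agent.Helper973_Meta.Local
import Pool.Agent.Helper973_Meta.Char

/-!
Products `G = A H` of an abelian normal subgroup `A` and an abelian subgroup `H`.
-/

set_option autoImplicit false
set_option linter.unusedSectionVars false

namespace Pool.Agent.Helper973_Meta.Spl

open Subgroup Pool.Agent.Helper973_OutC Pool.Agent.Helper973_Meta.Loc
open scoped commutatorElement

variable {G : Type*} [Group G] {A H : Subgroup G} [A.Normal]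

/-- `G = A H` with `A` and `H` abelian -/
structure Dec (A H : Subgroup G) : Prop where
  commA : ∀ a ∈ A, ∀ b ∈ A, a * b = b * a
  commH : ∀ a ∈ H, ∀ b ∈ H, a * b = b * a
  sup : A ⊔ H = ⊤

theorem Dec.exists (hd : Dec A H) (x : G) : ∃ a ∈ A, ∃ h ∈ H, a * h = x := by
  have h1 : x ∈ A ⊔ H := by rw [hd.sup]; exact Subgroup.mem_top x
  exact Subgroup.mem_sup_of_normal_left.1 h1

theorem Dec.gam_le (hd : Dec A H) : gam G 1 ≤ A := by
  rw [gam, Subgroup.lowerCentralSeries_succ, Subgroup.lowerCentralSeries_zero,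
    Subgroup.commutator_le]
  intro x _ y _
  obtain ⟨a, ha, h, hh, rfl⟩ := hd.exists x
  obtain ⟨b, hb, k, hk, rfl⟩ := hd.exists y
  have hn : A.Normal := inferInstance
  rw [← QuotientGroup.eq_one_iff]
  have e1 : (QuotientGroup.mk (a * h) : G ⧸ A) = QuotientGroup.mk h := by
    rw [QuotientGroup.mk_mul, (QuotientGroup.eq_one_iff a).2 ha, one_mul]
  have e2 : (QuotientGroup.mk (b * k) : G ⧸ A) = QuotientGroup.mk k := by
    rw [QuotientGroup.mk_mul, (QuotientGroup.eq_one_iff b).2 hb, one_mul]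
  have e3 : (QuotientGroup.mk ⁅a * h, b * k⁆ : G ⧸ A)
      = ⁅(QuotientGroup.mk (a * h) : G ⧸ A), QuotientGroup.mk (b * k)⁆ :=
    map_commutatorElement (QuotientGroup.mk' A) _ _
  rw [e3, e1, e2, commutatorElement_eq_one_iff_mul_comm, ← QuotientGroup.mk_mul,
    ← QuotientGroup.mk_mul, hd.commH h hh k hk]

theorem Dec.good (hd : Dec A H) : Good A :=
  ⟨hd.commA, fun a ha u hu => hd.commA a ha u (hd.gam_le hu)⟩

/-- elements of `A ∩ H` are central -/
theorem Dec.central (hd : Dec A H) {z : G} (hz : z ∈ A) (hz' : z ∈ H) (x : G) :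
    x * z = z * x := by
  obtain ⟨a, ha, h, hh, rfl⟩ := hd.exists x
  calc a * h * z = a * (h * z) := by group
    _ = a * (z * h) := by rw [hd.commH h hh z hz']
    _ = (a * z) * h := by group
    _ = (z * a) * h := by rw [hd.commA a ha z hz]
    _ = z * (a * h) := by group

theorem fix_central {α : MulAut G} (hα : α ∈ AutC G) {z : G} (hz : ∀ x, x * z = z * x) :
    α z = z := by
  obtain ⟨y, hy⟩ := isConj_iff.1 (hα z)
  rw [← hy, hz y]
  group

theorem Dec.mem (hd : Dec A H) {α : MulAut G} (hα : α ∈ AutC G) (x : G) : α x * x⁻¹ ∈ A :=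
  hd.gam_le (deep_of_autC α hα 0 x (by simp [gam]))

/-- on `H` a class-preserving automorphism is simulated by `A` -/
theorem Dec.sim (hd : Dec A H) {α : MulAut G} (hα : α ∈ AutC G) {h : G} (hh : h ∈ H) :
    ∃ b ∈ A, α h = b * h * b⁻¹ := by
  obtain ⟨y, hy⟩ := isConj_iff.1 (hα h)
  obtain ⟨b, hb, k, hk, rfl⟩ := hd.exists y
  refine ⟨b, hb, ?_⟩
  rw [← hy]
  calc b * k * h * (b * k)⁻¹ = b * (k * h) * k⁻¹ * b⁻¹ := by group
    _ = b * (h * k) * k⁻¹ * b⁻¹ := by rw [hd.commH k hk h hh]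
    _ = b * h * b⁻¹ := by group

theorem Dec.indep (hd : Dec A H) {α : MulAut G} (hα : α ∈ AutC G) {h h' : G} (hh : h ∈ H)
    (hh' : h' ∈ H) (hz : h' * h⁻¹ ∈ A) : α h' * h'⁻¹ = α h * h⁻¹ := by
  set z := h' * h⁻¹ with hzdef
  have hzH : z ∈ H := H.mul_mem hh' (H.inv_mem hh)
  have hc := hd.central hz hzH
  have e : h' = z * h := by rw [hzdef]; group
  rw [e, map_mul, fix_central hα hc, mul_inv_rev]
  have h1 := hc (α h * h⁻¹)
  calc z * α h * (h⁻¹ * z⁻¹) = (z * (α h * h⁻¹)) * z⁻¹ := by group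
    _ = α h * h⁻¹ := by rw [← h1]; group

/-- a chosen `H`-part -/
noncomputable def Dec.part (hd : Dec A H) (x : G) : G := (hd.exists x).choose_spec.2.choose

theorem Dec.part_mem (hd : Dec A H) (x : G) : hd.part x ∈ H :=
  (hd.exists x).choose_spec.2.choose_spec.1

theorem Dec.part_mul (hd : Dec A H) (x : G) : x * (hd.part x)⁻¹ ∈ A := by
  have h1 := (hd.exists x).choose_spec.2.choose_spec.2
  have h2 : x * (hd.part x)⁻¹ = (hd.exists x).choose := (eq_mul_inv_of_mul_eq h1).symm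
  rw [h2]
  exact (hd.exists x).choose_spec.1

/-- the `H`-part of a class-preserving automorphism, as a function -/
noncomputable def Dec.kf (hd : Dec A H) (α : MulAut G) (x : G) : G :=
  α (hd.part x) * (hd.part x)⁻¹ * x

theorem Dec.kf_apply (hd : Dec A H) {α : MulAut G} (hα : α ∈ AutC G) {a h : G} (ha : a ∈ A)
    (hh : h ∈ H) : hd.kf α (a * h) = α h * h⁻¹ * (a * h) := by
  have h1 : hd.part (a * h) * h⁻¹ ∈ A := by
    have h2 := hd.part_mul (a * h)
    have h3 : hd.part (a * h) * h⁻¹ = (a * h * (hd.part (a * h))⁻¹)⁻¹ * a := by group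
    rw [h3]
    exact A.mul_mem (A.inv_mem h2) ha
  rw [Dec.kf, hd.indep hα hh (hd.part_mem _) h1]

/-- the `H`-part of a class-preserving automorphism, as a homomorphism -/
noncomputable def Dec.kh (hd : Dec A H) (α : MulAut G) (hα : α ∈ AutC G) : G →* G :=
  MonoidHom.mk' (hd.kf α) (by
    intro x y
    obtain ⟨a, ha, h, hh, rfl⟩ := hd.exists x
    obtain ⟨b, hb, k, hk, rfl⟩ := hd.exists y
    have hn : A.Normal := inferInstance
    have e : a * h * (b * k) = (a * (h * b * h⁻¹)) * (h * k) := by group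
    rw [hd.kf_apply hα ha hh, hd.kf_apply hα hb hk, e,
      hd.kf_apply hα (A.mul_mem ha (hn.conj_mem b hb h)) (H.mul_mem hh hk), map_mul]
    set u := α h * h⁻¹ with hu
    set v := α k * k⁻¹ with hv
    have hvA : v ∈ A := hd.mem hα k
    have h1 : α h = u * h := by rw [hu]; group
    have h2 : α k = v * k := by rw [hv]; group
    rw [h1, h2]
    have h3 := hd.commA a ha (h * v * h⁻¹) (hn.conj_mem v hvA h)
    calc u * h * (v * k) * (h * k)⁻¹ * (a * (h * b * h⁻¹) * (h * k))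
        = u * ((h * v * h⁻¹) * a) * h * b * k := by group
      _ = u * (a * (h * v * h⁻¹)) * h * b * k := by rw [h3]
      _ = u * (a * h) * (v * (b * k)) := by group)

theorem Dec.kh_apply (hd : Dec A H) {α : MulAut G} (hα : α ∈ AutC G) {a h : G} (ha : a ∈ A)
    (hh : h ∈ H) : hd.kh α hα (a * h) = α h * h⁻¹ * (a * h) := hd.kf_apply hα ha hh

theorem Dec.kh_inj (hd : Dec A H) {α : MulAut G} (hα : α ∈ AutC G) :
    Function.Injective (hd.kh α hα) := by
  rw [injective_iff_map_eq_one]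
  intro x hx
  obtain ⟨a, ha, h, hh, rfl⟩ := hd.exists x
  rw [hd.kh_apply hα ha hh] at hx
  have h1 : a * h ∈ A := by
    have h2 : a * h = (α h * h⁻¹)⁻¹ := eq_inv_of_mul_eq_one_right hx
    rw [h2]
    exact A.inv_mem (hd.mem hα h)
  have h3 := hd.kh_apply hα h1 H.one_mem
  rw [mul_one, map_one, inv_one, mul_one, one_mul, hd.kh_apply hα ha hh, hx] at h3
  exact h3.symm

variable [Finite G]

/-- the `H`-part of a class-preserving automorphism -/
noncomputable def Dec.kap (hd : Dec A H) (α : MulAut G) (hα : α ∈ AutC G) : MulAut G :=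
  MulEquiv.ofBijective (hd.kh α hα) (Finite.injective_iff_bijective.1 (hd.kh_inj hα))

theorem Dec.kap_apply (hd : Dec A H) {α : MulAut G} (hα : α ∈ AutC G) {a h : G} (ha : a ∈ A)
    (hh : h ∈ H) : hd.kap α hα (a * h) = α h * h⁻¹ * (a * h) := hd.kf_apply hα ha hh

theorem Dec.kap_H (hd : Dec A H) {α : MulAut G} (hα : α ∈ AutC G) {h : G}
    (hh : h ∈ H) : hd.kap α hα h = α h := by
  have h1 := hd.kap_apply hα A.one_mem hh
  rw [one_mul] at h1
  rw [h1]
  group

theorem Dec.kap_sim (hd : Dec A H) {α : MulAut G} (hα : α ∈ AutC G) : SimA A (hd.kap α hα) := by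
  intro x
  obtain ⟨a, ha, h, hh, rfl⟩ := hd.exists x
  have hn : A.Normal := inferInstance
  obtain ⟨b, hb, hb'⟩ := hd.sim hα hh
  refine ⟨b, hb, ?_⟩
  rw [hd.kap_apply hα ha hh, hb']
  have h1 : b * h * b⁻¹ * h⁻¹ ∈ A := by
    rw [← hb']
    exact hd.mem hα h
  have h2 := hd.commA _ h1 a ha
  calc b * h * b⁻¹ * h⁻¹ * (a * h) = (b * h * b⁻¹ * h⁻¹ * a) * h := by group
    _ = (a * (b * h * b⁻¹ * h⁻¹)) * h := by rw [h2]
    _ = (a * b) * h * b⁻¹ := by group
    _ = (b * a) * h * b⁻¹ := by rw [hd.commA a ha b hb]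
    _ = b * (a * h) * b⁻¹ := by group

theorem autC_of_sim {w : MulAut G} (hw : SimA A w) : w ∈ AutC G := by
  intro x
  obtain ⟨z, _, hz⟩ := hw x
  exact isConj_iff.2 ⟨z, hz.symm⟩

/-- every class-preserving automorphism is a product of one simulated by `A` and one fixing `H` -/
theorem Dec.split (hd : Dec A H) (α : AutC G) : ∃ κ τ : AutC G, α = κ * τ ∧
    SimA A (κ : MulAut G) ∧ ∀ h ∈ H, (τ : MulAut G) h = h := by
  have hs := hd.kap_sim α.2
  set κ : AutC G := ⟨hd.kap (α : MulAut G) α.2, autC_of_sim hs⟩ with hκ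
  refine ⟨κ, κ⁻¹ * α, by group, hs, ?_⟩
  intro h hh
  change (κ : MulAut G)⁻¹ ((α : MulAut G) h) = h
  have h1 : (κ : MulAut G) h = (α : MulAut G) h := hd.kap_H α.2 hh
  rw [← h1, MulAut.inv_apply_self]

/-- class-preserving automorphisms fixing `H` commute -/
theorem Dec.comm_fix (hd : Dec A H) {τ τ' : AutC G} (h1 : ∀ h ∈ H, (τ : MulAut G) h = h)
    (h2 : ∀ h ∈ H, (τ' : MulAut G) h = h) : ⁅τ, τ'⁆ = 1 := by
  have hl : ⁅τ, τ'⁆ ∈ (⊤ : Subgroup (AutC G)).lowerCentralSeries 1 := by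
    rw [Subgroup.lowerCentralSeries_succ]
    exact Subgroup.commutator_mem_commutator (by simp) (Subgroup.mem_top _)
  have hA : ∀ a ∈ A, ((⁅τ, τ'⁆ : AutC G) : MulAut G) a = a := by
    intro a ha
    obtain ⟨z, hz, hz'⟩ := (lcs_le_SimAt a 1 hl).2
    rw [hz', hd.commA z (hd.gam_le hz) a ha]
    group
  have inv_fix : ∀ {t : AutC G}, (∀ h ∈ H, (t : MulAut G) h = h) →
      ∀ h ∈ H, ((t : MulAut G)⁻¹) h = h := by
    intro t ht h hh
    conv_lhs => rw [← ht h hh]
    exact MulAut.inv_apply_self _ _ _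
  have hH : ∀ h ∈ H, ((⁅τ, τ'⁆ : AutC G) : MulAut G) h = h := by
    intro h hh
    change (τ : MulAut G) ((τ' : MulAut G) (((τ : MulAut G)⁻¹) (((τ' : MulAut G)⁻¹) h))) = h
    rw [inv_fix h2 h hh, inv_fix h1 h hh, h2 h hh, h1 h hh]
  apply Subtype.ext
  ext x
  obtain ⟨a, ha, h, hh, rfl⟩ := hd.exists x
  rw [map_mul, hA a ha, hH h hh]
  rfl

/-- commutators of class-preserving automorphisms are central modulo inner automorphisms -/
theorem Dec.central_comm (hd : Dec A H) (α β : AutC G) :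
    QuotientGroup.mk' (InnC G) ⁅α, β⁆ ∈ Subgroup.center (OutC G) := by
  have key : ∀ κ β : AutC G, SimA A (κ : MulAut G) →
      QuotientGroup.mk' (InnC G) ⁅κ, β⁆ ∈ Subgroup.center (OutC G) := by
    intro κ β hκ
    rw [Subgroup.mem_center_iff]
    intro q
    obtain ⟨γ, rfl⟩ := QuotientGroup.mk'_surjective (InnC G) q
    have h1 := double_commutator hd.good (w := κ) (γ := β) (γ' := γ) hκ
    have h2 : QuotientGroup.mk' (InnC G) ⁅⁅κ, β⁆, γ⁆ = 1 := (QuotientGroup.eq_one_iff _).2 h1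
    rw [map_commutatorElement, commutatorElement_eq_one_iff_mul_comm] at h2
    exact h2.symm
  have key' : ∀ κ β : AutC G, SimA A (κ : MulAut G) →
      QuotientGroup.mk' (InnC G) ⁅β, κ⁆ ∈ Subgroup.center (OutC G) := by
    intro κ β hκ
    rw [← commutatorElement_inv, map_inv]
    exact Subgroup.inv_mem _ (key κ β hκ)
  obtain ⟨κ, τ, hα, hκ, hτ⟩ := hd.split α
  obtain ⟨κ', τ', hβ, hκ', hτ'⟩ := hd.split β
  have e1 : ⁅α, β⁆ = κ * ⁅τ, β⁆ * κ⁻¹ * ⁅κ, β⁆ := by
    rw [hα]; simp only [commutatorElement_def]; group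
  have e2 : ⁅τ, β⁆ = ⁅τ, κ'⁆ * (κ' * ⁅τ, τ'⁆ * κ'⁻¹) := by
    rw [hβ]; simp only [commutatorElement_def]; group
  rw [hd.comm_fix hτ hτ'] at e2
  have e3 : ⁅τ, β⁆ = ⁅τ, κ'⁆ := by rw [e2]; group
  rw [e1, e3, map_mul, map_mul, map_mul]
  have hc := key' κ' τ hκ'
  have hc' : QuotientGroup.mk' (InnC G) κ * QuotientGroup.mk' (InnC G) ⁅τ, κ'⁆ *
      QuotientGroup.mk' (InnC G) κ⁻¹ = QuotientGroup.mk' (InnC G) ⁅τ, κ'⁆ := by
    rw [Subgroup.mem_center_iff] at hc
    rw [hc (QuotientGroup.mk' (InnC G) κ), mul_assoc, ← map_mul, mul_inv_cancel, map_one, mul_one]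
  rw [hc']
  exact Subgroup.mul_mem _ hc (key κ β hκ)

theorem Dec.lcs (hd : Dec A H) : (⊤ : Subgroup (OutC G)).lowerCentralSeries 2 = ⊥ := by
  have h1 : (⊤ : Subgroup (OutC G)).lowerCentralSeries 1 ≤ Subgroup.center (OutC G) := by
    rw [Subgroup.lowerCentralSeries_succ, Subgroup.lowerCentralSeries_zero,
      Subgroup.commutator_le]
    intro x _ y _
    obtain ⟨α, rfl⟩ := QuotientGroup.mk'_surjective (InnC G) x
    obtain ⟨β, rfl⟩ := QuotientGroup.mk'_surjective (InnC G) y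
    rw [← map_commutatorElement]
    exact hd.central_comm α β
  rw [Subgroup.lowerCentralSeries_succ, eq_bot_iff, Subgroup.commutator_le]
  intro x hx y _
  rw [Subgroup.mem_bot, commutatorElement_eq_one_iff_mul_comm]
  exact ((Subgroup.mem_center_iff.1 (h1 hx)) y).symm

end Pool.Agent.Helper973_Meta.Spl
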